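import Pool.Agent.Helper52.SX.Goals2

/-!
# SX-CNV: the tuple of a circuit with certificates
-/

namespace Pool.Agent.Helper12.SX

open Pool.Agent.Helper78.DT Pool.Agent.Helper65.CS Pool.Agent.Helper52.SX
open Pool.Agent.Helper78.JT (Clause CList Circuit Holds out idx)

theorem ixv_append {n : ℕ} (x : Fin n → Bool) (A B : List DList) :
    ixv x (A ++ B) = ixv x A + 2 ^ A.length * ixv x B := by
  induction A with
  | nil => simp [ixv]
  | cons F A ih =>
    simp only [List.cons_append, ixv, ih, List.length_cons, pow_succ]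
    ring

theorem ixv_lt {n : ℕ} (x : Fin n → Bool) (A : List DList) : ixv x A < 2 ^ A.length := by
  induction A with
  | nil => simp [ixv]
  | cons F A ih =>
    simp only [ixv, List.length_cons, pow_succ]
    split_ifs <;> omega

theorem ixv_all {n : ℕ} (x : Fin n → Bool) (A : List DList)
    (h : ∀ F ∈ A, DList.val x F = true) : ixv x A + 1 = 2 ^ A.length := by
  induction A with
  | nil => simp [ixv]
  | cons F A ih =>
    have h1 := ih fun G hG => h G (List.mem_cons_of_mem _ hG)
    have h2 := h F List.mem_cons_self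
    simp only [ixv, List.length_cons, pow_succ, h2, if_true]
    omega

theorem ixv_not {n : ℕ} (x : Fin n → Bool) (A : List DList)
    (h : ∃ F ∈ A, DList.val x F = false) : ixv x A + 2 ≤ 2 ^ A.length := by
  induction A with
  | nil => simp at h
  | cons F A ih =>
    obtain ⟨G, hG, hv⟩ := h
    rcases List.mem_cons.1 hG with rfl | hG
    · have h1 := ixv_lt x A
      simp only [ixv, List.length_cons, pow_succ, hv]
      simp only [Bool.false_eq_true, if_false]
      omega
    · have h1 := ih ⟨G, hG, hv⟩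
      simp only [ixv, List.length_cons, pow_succ]
      split_ifs <;> omega

theorem ixv_idx {n : ℕ} (x : Fin n → Bool) (D : ℕ) (L : List CList)
    (h : ∀ f ∈ L, DList.val x (vls n D f) = Pool.Agent.Helper78.JT.val x f) :
    ixv x (L.map (vls n D)) = idx x L := by
  induction L with
  | nil => simp [ixv, idx]
  | cons f L ih =>
    have h1 := ih fun g hg => h g (List.mem_cons_of_mem _ hg)
    have h2 := h f List.mem_cons_self
    simp only [List.map_cons, ixv, idx, h1, h2]

/-- The entry of the table, if all certificates are true. -/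
theorem tv_all (D : ℕ) (z : Circuit) (x : Fin z.1 → Bool)
    (h : ∀ f ∈ z.2.1, DList.val x (ols z.1 D f) = true)
    (h' : ∀ f ∈ z.2.1, DList.val x (vls z.1 D f) = Pool.Agent.Helper78.JT.val x f) :
    tv x (cnv D z.2.1.length z) = out z x := by
  have h1 := ixv_idx x D z.2.1 h'
  have h2 : ixv x (z.2.1.map (ols z.1 D)) + 1 = 2 ^ z.2.1.length := by
    have := ixv_all x (z.2.1.map (ols z.1 D)) (by
      intro F hF
      obtain ⟨f, hf, rfl⟩ := List.mem_map.1 hF
      exact h f hf)
    simpa using this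
  have h3 : (4 : ℕ) ^ z.2.1.length = 2 ^ z.2.1.length * 2 ^ z.2.1.length := by
    rw [← mul_pow]; norm_num
  have h4 : ixv x (z.2.1.map (vls z.1 D) ++ z.2.1.map (ols z.1 D)) =
      (4 ^ z.2.1.length - 2 ^ z.2.1.length) + idx x z.2.1 := by
    rw [ixv_append, h1, List.length_map, h3]
    have h5 : ixv x (z.2.1.map (ols z.1 D)) = 2 ^ z.2.1.length - 1 := by omega
    rw [h5, Nat.mul_sub, mul_one]
    omega
  unfold tv cnv Pool.Agent.Helper78.JT.out
  simp only [h4]
  rw [List.getD_append_right _ _ _ _ (by simp)]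
  simp

theorem tv_not (D : ℕ) (z : Circuit) (x : Fin z.1 → Bool)
    (h : ∃ f ∈ z.2.1, DList.val x (ols z.1 D f) = false) :
    tv x (cnv D z.2.1.length z) = false := by
  obtain ⟨f, hf, hv⟩ := h
  have h2 : ixv x (z.2.1.map (ols z.1 D)) + 2 ≤ 2 ^ z.2.1.length := by
    have := ixv_not x (z.2.1.map (ols z.1 D)) ⟨_, List.mem_map.2 ⟨f, hf, rfl⟩, hv⟩
    simpa using this
  have h1 : ixv x (z.2.1.map (vls z.1 D)) < 2 ^ z.2.1.length := by
    have := ixv_lt x (z.2.1.map (vls z.1 D))
    simpa using this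
  have h3 : (4 : ℕ) ^ z.2.1.length = 2 ^ z.2.1.length * 2 ^ z.2.1.length := by
    rw [← mul_pow]; norm_num
  have h4 : ixv x (z.2.1.map (vls z.1 D) ++ z.2.1.map (ols z.1 D)) <
      4 ^ z.2.1.length - 2 ^ z.2.1.length := by
    rw [ixv_append, List.length_map, h3]
    have h5 : 2 ^ z.2.1.length * (ixv x (z.2.1.map (ols z.1 D)) + 2) ≤
      2 ^ z.2.1.length * 2 ^ z.2.1.length := Nat.mul_le_mul_left _ h2
    rw [mul_add] at h5
    omega
  unfold tv cnv
  rw [List.getD_append _ _ _ _ (by simpa using h4)]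
  rw [List.getD_eq_getElem _ _ (by simpa using h4)]
  simp

/-- **CNV.** -/
theorem cnvS (hV : ValStmt) : CnvStmt := by
  intro D z x
  by_cases h : ∀ f ∈ z.2.1, DList.val x (ols z.1 D f) = true
  · have h1 := tv_all D z x h fun f hf => ((hV z.1 D f).2.2.2.2 x).1 (h f hf)
    rw [h1]
    exact ⟨fun h => h, fun h => Or.inl h⟩
  · push Not at h
    obtain ⟨f, hf, hv⟩ := h
    have hv' : DList.val x (ols z.1 D f) = false := by simpa using hv
    have h1 := tv_not D z x ⟨f, hf, hv'⟩
    refine ⟨fun h => ?_, fun _ => Or.inr ?_⟩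
    · rw [h1] at h
      exact absurd h (by simp)
    · exact ⟨f, hf, ((hV z.1 D f).2.2.2.2 x).2 hv'⟩

end Pool.Agent.Helper12.SX
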